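import Pool.Agent.Helper74.NumSgpDefs
import Pool.Agent.Helper74.NumSgpProof

set_option autoImplicit false

namespace Pool.Agent.Results.MP_325c15_al.AllQuotients

open Pool.Agent.Helper74.NumSgp

/-- Every numerical semigroup `T` is a quotient `S / d` of a complete intersection numerical
semigroup `S`. -/
theorem result (T : AddSubmonoid ℕ) (hT : IsNumericalSemigroup T) :
    ∃ S : AddSubmonoid ℕ, IsCompleteIntersection S ∧
      ∃ d : ℕ, 1 ≤ d ∧ ∀ x : ℕ, x ∈ T ↔ d * x ∈ S :=
  exists_quotient T hT

end Pool.Agent.Results.MP_325c15_al.AllQuotients
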